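import Pool.Agent.Helper96.BT.Defs

/-!
# Project BT: a deterministic program has one computation
-/

set_option autoImplicit false
set_option linter.unusedSectionVars false

namespace Pool.Agent.Helper45.BT

open Finset Pool.Agent.Helper74.NW Pool.Agent.Helper96.BT
open Pool.Agent.Helper96.PH (Det)

section det

variable {C X Z : Type} {S : ℕ} {P : NProg C X Z S} {I : C → X}

theorem run_unique (hP : Det P) {s t : Fin S} {l : List C} (h : P.Run I s l t) :
    ∀ {z : Z}, P.act t = Sum.inr z → ∀ {t' : Fin S} {l' : List C} {z' : Z}, P.Run I s l' t' →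
      P.act t' = Sum.inr z' → l = l' := by
  induction h with
  | nil s =>
    intro z hz t' l' z' h' _
    cases h' with
    | nil => rfl
    | cons _ s' _ c next l ha _ _ => rw [hz] at ha; exact absurd ha (by simp)
  | cons s s' t c next l ha hs _ ih =>
    intro z hz t' l' z' h' hz'
    cases h' with
    | nil => rw [hz'] at ha; exact absurd ha (by simp)
    | cons _ s₂ _ c₂ next₂ l₂ ha₂ hs₂ h₂ =>
      rw [ha] at ha₂
      simp only [Sum.inl.injEq, Prod.mk.injEq] at ha₂
      obtain ⟨rfl, rfl⟩ := ha₂
      have h3 := hP s c next ha _ hs hs₂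
      subst h3
      rw [ih hz h₂ hz']

theorem ends_unique (hP : Det P) {l l' : List C} {z z' : Z} (h : P.Ends I l z) (h' : P.Ends I l' z') : l = l' := by
  obtain ⟨t, ht, hz⟩ := h
  obtain ⟨t', ht', hz'⟩ := h'
  exact run_unique hP ht hz ht' hz'

end det

end Pool.Agent.Helper45.BT
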