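import Pool.Agent.Helper99.BT.Defs
import Pool.Agent.Helper45.BT.Colour

/-!
# Project BT, piece W, E5: samples and a colouring which are good for most inputs
-/

set_option autoImplicit false

namespace Pool.Agent.Helper45.BT

open Finset Pool.Agent.Helper74.NW Pool.Agent.Helper96.BT Pool.Agent.Helper99.BT
open Pool.Agent.Helper99.NK (times)
open Pool.Agent.Helper96.PH (Det)

/-- Averaging: if every list has few bad parameters, one parameter is good for most inputs. -/
theorem exists_param {C X Z Y : Type} [Fintype C] [Fintype X] [Fintype Y] [Nonempty Y] {S : ℕ} (P : NProg C X Z S)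
    (hP : Det P) (k : ℕ) (hS : S ≤ k) (Bad : Y → List C → Prop) (β : ℝ) (hβ : 0 ≤ β)
    (h : ∀ l : List C, l.length ≤ k → (Nat.card {p : Y // Bad p l} : ℝ) ≤ β * Nat.card Y) :
    ∃ p : Y, (Nat.card {I : C → X // ∃ l z, P.Ends I l z ∧ Bad p l} : ℝ) ≤ β * Nat.card (C → X) := by
  classical
  have h1 : ∑ p : Y, (Nat.card {I : C → X // ∃ l z, P.Ends I l z ∧ Bad p l} : ℝ) ≤
      ∑ _p : Y, β * Nat.card (C → X) := by
    calc _ = ∑ p : Y, ∑ I : C → X, (if ∃ l z, P.Ends I l z ∧ Bad p l then (1 : ℝ) else 0) := by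
          refine sum_congr rfl fun p _ => ?_
          rw [Nat.card_eq_fintype_card, Fintype.card_subtype, card_filter]
          push_cast
          rfl
      _ = ∑ I : C → X, ∑ p : Y, (if ∃ l z, P.Ends I l z ∧ Bad p l then (1 : ℝ) else 0) := sum_comm
      _ ≤ ∑ _I : C → X, β * Nat.card Y := by
          refine sum_le_sum fun I _ => ?_
          by_cases hI : ∃ l z, P.Ends I l z
          · obtain ⟨l, z, hl⟩ := hI
            have hlen : l.length < S := by
              obtain ⟨t, ht, hz⟩ := hl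
              exact run_short ht fun l' hl' => le_of_eq (congrArg List.length (run_unique hP ht hz hl' hz))
            have h2 : ∑ p : Y, (if ∃ l z, P.Ends I l z ∧ Bad p l then (1 : ℝ) else 0) ≤
                Nat.card {p : Y // Bad p l} := by
              rw [Nat.card_eq_fintype_card, Fintype.card_subtype, card_filter]
              push_cast
              refine sum_le_sum fun p _ => ?_
              by_cases h3 : ∃ l z, P.Ends I l z ∧ Bad p l
              · obtain ⟨l', z', hl', hb⟩ := h3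
                have h4 := ends_unique hP hl hl'
                subst h4
                rw [if_pos hb]
                split_ifs <;> norm_num
              · rw [if_neg h3]
                split_ifs <;> norm_num
            exact h2.trans (h l (hlen.le.trans hS))
          · rw [sum_eq_zero]
            · positivity
            · intro p _
              rw [if_neg]
              rintro ⟨l, z, h2, -⟩
              exact hI ⟨l, z, h2⟩
      _ = _ := by
          rw [sum_const, sum_const, card_univ, card_univ, Nat.card_eq_fintype_card, Nat.card_eq_fintype_card,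
            nsmul_eq_mul, nsmul_eq_mul]
          ring
  obtain ⟨p, -, hp⟩ := exists_le_of_sum_le univ_nonempty h1
  exact ⟨p, hp⟩

/-- E5 from E4. -/
theorem exists_cut_of {C X Z : Type} [Fintype C] [Fintype X] [Nonempty C] {S : ℕ} (P : NProg C X Z S) (hP : Det P)
    {q w T d E : ℕ} (hE : E ≤ Fintype.card C) (hS : S ≤ 2 ^ d) {ε : ℝ} (h0 : 0 < ε)
    (hone : ∀ l : List C, l.length ≤ 2 ^ d →
      (Nat.card {p : (Fin q → C) × Finset (Fin ((w + 1) * q + 1)) //
        (Rare ε w l ∧ ¬ GoodH p.1 w T (3 / 4 * ε * q) p.2 l) ∨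
        (GoodH p.1 w T (3 / 4 * ε * q) p.2 l ∧ ¬ Rare (ε / 2) w l)} : ℝ) ≤
      ((2 ^ d + 1) ^ 2 * (1 - (E : ℝ) / Fintype.card C) ^ q +
        8 * 2 ^ w * ((w + 1) * q + 1) * E ^ 2 / (ε * Fintype.card C) ^ 2 + 16 / (ε * q)) *
        Nat.card ((Fin q → C) × Finset (Fin ((w + 1) * q + 1)))) :
    ∃ (H : Fin q → C) (A : Finset (Fin ((w + 1) * q + 1))),
      (Nat.card {I : C → X // ∃ l z, P.Ends I l z ∧
        ((Rare ε w l ∧ ¬ GoodH H w T (3 / 4 * ε * q) A l) ∨
          (GoodH H w T (3 / 4 * ε * q) A l ∧ ¬ Rare (ε / 2) w l))} : ℝ) ≤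
      ((2 ^ d + 1) ^ 2 * (1 - (E : ℝ) / Fintype.card C) ^ q +
        8 * 2 ^ w * ((w + 1) * q + 1) * E ^ 2 / (ε * Fintype.card C) ^ 2 + 16 / (ε * q)) * Nat.card (C → X) := by
  have hC : (0 : ℝ) < Fintype.card C := by exact_mod_cast Fintype.card_pos
  have h1 : (0 : ℝ) ≤ 1 - (E : ℝ) / Fintype.card C := by
    rw [sub_nonneg, div_le_one hC]
    exact_mod_cast hE
  have hβ : (0 : ℝ) ≤ (2 ^ d + 1) ^ 2 * (1 - (E : ℝ) / Fintype.card C) ^ q +
        8 * 2 ^ w * ((w + 1) * q + 1) * E ^ 2 / (ε * Fintype.card C) ^ 2 + 16 / (ε * q) := by positivity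
  obtain ⟨p, hp⟩ := exists_param (X := X) P hP (2 ^ d) hS (Y := (Fin q → C) × Finset (Fin ((w + 1) * q + 1)))
    (fun p l => (Rare ε w l ∧ ¬ GoodH p.1 w T (3 / 4 * ε * q) p.2 l) ∨
        (GoodH p.1 w T (3 / 4 * ε * q) p.2 l ∧ ¬ Rare (ε / 2) w l)) _ hβ hone
  exact ⟨p.1, p.2, hp⟩

end Pool.Agent.Helper45.BT
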