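import Mathlib

/-!
# Project BT, the second moment lemma (abstract form)
-/

set_option autoImplicit false
set_option linter.unusedSectionVars false

namespace Pool.Agent.Helper45.BT

open Finset

section Parseval

variable {G : Type*} [AddCommGroup G] [Fintype G]

theorem parseval (f : G → ℂ) :
    ∑ ψ : AddChar G ℂ, ‖∑ x, f x * ψ x‖ ^ 2 = Fintype.card G * ∑ x, ‖f x‖ ^ 2 := by
  classical
  have h2 : ∀ z : ℂ, ((‖z‖ : ℂ)) ^ 2 = z * (starRingEnd ℂ) z := fun z => by
    rw [Complex.mul_conj, Complex.normSq_eq_norm_sq]; push_cast; rfl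
  have h1 : ((∑ ψ : AddChar G ℂ, ‖∑ x, f x * ψ x‖ ^ 2 : ℝ) : ℂ) =
      ((Fintype.card G * ∑ x, ‖f x‖ ^ 2 : ℝ) : ℂ) := by
    push_cast
    simp_rw [h2]
    have h3 : ∀ ψ : AddChar G ℂ, (∑ x, f x * ψ x) * (starRingEnd ℂ) (∑ x, f x * ψ x) =
        ∑ x, ∑ y, f x * (starRingEnd ℂ) (f y) * ψ (x - y) := by
      intro ψ
      rw [map_sum, Finset.sum_mul_sum]
      refine Finset.sum_congr rfl fun x _ => Finset.sum_congr rfl fun y _ => ?_
      rw [map_mul, sub_eq_add_neg, AddChar.map_add_eq_mul, AddChar.map_neg_eq_conj]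
      ring
    simp_rw [h3]
    rw [Finset.sum_comm, Finset.mul_sum]
    refine Finset.sum_congr rfl fun x _ => ?_
    rw [Finset.sum_comm]
    simp_rw [← Finset.mul_sum, AddChar.sum_apply_eq_ite, sub_eq_zero]
    simp
    ring
  exact_mod_cast h1

end Parseval

section Bilinear

variable {I G₁ G₂ : Type*} [Fintype I] [AddCommGroup G₁] [Fintype G₁] [AddCommGroup G₂] [Fintype G₂]

theorem sum_sq_le {G : Type*} [AddCommGroup G] [Fintype G] (θ : I → AddChar G ℂ)
    (hθ : Function.Injective θ) (f : G → ℂ) (hf : ∀ x, ‖f x‖ ≤ 1) :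
    ∑ i, ‖∑ x, f x * θ i x‖ ^ 2 ≤ (Fintype.card G : ℝ) ^ 2 := by
  classical
  calc ∑ i, ‖∑ x, f x * θ i x‖ ^ 2 = ∑ ψ ∈ univ.image θ, ‖∑ x, f x * ψ x‖ ^ 2 := by
        rw [Finset.sum_image fun a _ b _ h => hθ h]
    _ ≤ ∑ ψ : AddChar G ℂ, ‖∑ x, f x * ψ x‖ ^ 2 :=
        Finset.sum_le_sum_of_subset_of_nonneg (Finset.subset_univ _) fun _ _ _ => by positivity
    _ = Fintype.card G * ∑ x, ‖f x‖ ^ 2 := parseval f
    _ ≤ Fintype.card G * ∑ _x : G, 1 := by
        gcongr with x
        exact pow_le_one₀ (norm_nonneg _) (hf x)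
    _ = _ := by simp; ring

theorem bilinear_le (θ₁ : I → AddChar G₁ ℂ) (θ₂ : I → AddChar G₂ ℂ) (h1 : Function.Injective θ₁)
    (h2 : Function.Injective θ₂) (c : I → ℂ) (C : ℝ) (hc : ∀ i, ‖c i‖ ≤ C) (hC : 0 ≤ C) (f : G₁ → ℂ) (g : G₂ → ℂ)
    (hf : ∀ x, ‖f x‖ ≤ 1) (hg : ∀ y, ‖g y‖ ≤ 1) :
    ‖∑ x, ∑ y, (∑ i, c i * (θ₁ i x * θ₂ i y)) * (f x * g y)‖ ≤
      C * (Fintype.card G₁ * Fintype.card G₂) := by
  have h3 : ∑ x, ∑ y, (∑ i, c i * (θ₁ i x * θ₂ i y)) * (f x * g y) =
      ∑ i, c i * ((∑ x, f x * θ₁ i x) * (∑ y, g y * θ₂ i y)) := by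
    calc ∑ x, ∑ y, (∑ i, c i * (θ₁ i x * θ₂ i y)) * (f x * g y) =
        ∑ x, ∑ i, ∑ y, c i * (θ₁ i x * θ₂ i y) * (f x * g y) := by
          refine Finset.sum_congr rfl fun x _ => ?_
          rw [Finset.sum_comm]
          exact Finset.sum_congr rfl fun y _ => Finset.sum_mul _ _ _
      _ = ∑ i, ∑ x, ∑ y, c i * (θ₁ i x * θ₂ i y) * (f x * g y) := Finset.sum_comm
      _ = _ := by
          refine Finset.sum_congr rfl fun i _ => ?_
          rw [Finset.sum_mul_sum, Finset.mul_sum]
          refine Finset.sum_congr rfl fun x _ => ?_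
          rw [Finset.mul_sum]
          exact Finset.sum_congr rfl fun y _ => by ring
  rw [h3]
  calc _ ≤ ∑ i, C * (‖∑ x, f x * θ₁ i x‖ * ‖∑ y, g y * θ₂ i y‖) := by
        refine (norm_sum_le _ _).trans (Finset.sum_le_sum fun i _ => ?_)
        rw [norm_mul, norm_mul]
        exact mul_le_mul_of_nonneg_right (hc i) (by positivity)
    _ = C * ∑ i, (‖∑ x, f x * θ₁ i x‖ * ‖∑ y, g y * θ₂ i y‖) := by rw [Finset.mul_sum]
    _ ≤ C * (Real.sqrt (∑ i, ‖∑ x, f x * θ₁ i x‖ ^ 2) * Real.sqrt (∑ i, ‖∑ y, g y * θ₂ i y‖ ^ 2)) := by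
        gcongr
        exact Real.sum_mul_le_sqrt_mul_sqrt _ _ _
    _ ≤ C * (Real.sqrt ((Fintype.card G₁ : ℝ) ^ 2) * Real.sqrt ((Fintype.card G₂ : ℝ) ^ 2)) := by
        gcongr
        · exact sum_sq_le θ₁ h1 f hf
        · exact sum_sq_le θ₂ h2 g hg
    _ = _ := by
        rw [Real.sqrt_sq (by positivity), Real.sqrt_sq (by positivity)]

end Bilinear

section Node

variable {τ K : Type*} [Fintype τ] [DecidableEq τ] [AddCommGroup K] [Fintype K] [DecidableEq K]

/-- The indicator function of a point without its mean. -/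
noncomputable def gb (b x : K) : ℂ := (if x = b then 1 else 0) - (Fintype.card K : ℂ)⁻¹

/-- The coefficients of the function `F` of the letters. -/
noncomputable def coef (F : (τ → K) → ℂ) (e : τ → AddChar K ℂ) : ℂ :=
  ((Fintype.card K : ℂ) ^ Fintype.card τ)⁻¹ * ∑ y : τ → K, F y * ∏ t, e t (- y t)

theorem inversion (F : (τ → K) → ℂ) (y : τ → K) : F y = ∑ e : τ → AddChar K ℂ, coef F e * ∏ t, e t (y t) := by
  classical
  have hk : (Fintype.card K : ℂ) ≠ 0 := by exact_mod_cast Fintype.card_ne_zero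
  have h1 : ∀ z : τ → K, ∑ e : τ → AddChar K ℂ, ∏ t, e t (z t) =
      if z = 0 then (Fintype.card K : ℂ) ^ Fintype.card τ else 0 := by
    intro z
    have h2 := Finset.prod_univ_sum (fun _ : τ => (univ : Finset (AddChar K ℂ))) (fun t ψ => ψ (z t))
    rw [Fintype.piFinset_univ] at h2
    rw [← h2]
    simp_rw [AddChar.sum_apply_eq_ite]
    split_ifs with h
    · subst h; simp
    · obtain ⟨t, ht⟩ := Function.ne_iff.1 h
      exact Finset.prod_eq_zero (Finset.mem_univ t) (by simpa using ht)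
  calc F y = ((Fintype.card K : ℂ) ^ Fintype.card τ)⁻¹ * ∑ y' : τ → K, F y' *
        (if y - y' = 0 then (Fintype.card K : ℂ) ^ Fintype.card τ else 0) := by
        simp_rw [sub_eq_zero]
        simp
        field_simp
    _ = ((Fintype.card K : ℂ) ^ Fintype.card τ)⁻¹ * ∑ y' : τ → K, F y' *
        ∑ e : τ → AddChar K ℂ, ∏ t, e t ((y - y') t) := by simp_rw [h1]
    _ = _ := by
        simp_rw [coef, Finset.mul_sum, Finset.sum_mul]
        rw [Finset.sum_comm]
        refine Finset.sum_congr rfl fun e _ => Finset.sum_congr rfl fun y' _ => ?_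
        have h3 : ∏ t, e t ((y - y') t) = (∏ t, e t (- y' t)) * ∏ t, e t (y t) := by
          rw [← Finset.prod_mul_distrib]
          refine Finset.prod_congr rfl fun t _ => ?_
          rw [← AddChar.map_add_eq_mul]
          congr 1
          simp [sub_eq_neg_add]
        rw [h3]
        ring

theorem coef_prod (f : τ → K → ℂ) (e : τ → AddChar K ℂ) :
    coef (fun y => ∏ s, f s (y s)) e = ∏ s, ((Fintype.card K : ℂ)⁻¹ * ∑ x, f s x * e s (-x)) := by
  classical
  have h2 := Finset.prod_univ_sum (fun _ : τ => (univ : Finset K)) (fun s x => f s x * e s (-x))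
  rw [Fintype.piFinset_univ] at h2
  rw [Finset.prod_mul_distrib, h2, coef]
  simp [Finset.prod_mul_distrib]

theorem coef_sum {I : Type*} (J : Finset I) (F : I → (τ → K) → ℂ) (e : τ → AddChar K ℂ) :
    coef (fun y => ∑ i ∈ J, F i y) e = ∑ i ∈ J, coef (F i) e := by
  simp_rw [coef, Finset.sum_mul]
  rw [Finset.sum_comm, Finset.mul_sum]

/-- The product of two mean free indicators, at the letters `t` and `t'`. -/
noncomputable def pr (b b' : K) (t t' : τ) (y : τ → K) : ℂ := gb b (y t) * gb b' (y t')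

theorem coef_pr (b b' : K) (t t' : τ) (e : τ → AddChar K ℂ) :
    coef (pr b b' t t') e = ∏ s, ((Fintype.card K : ℂ)⁻¹ *
      ∑ x, ((if s = t then gb b x else 1) * (if s = t' then gb b' x else 1)) * e s (-x)) := by
  rw [← coef_prod]
  congr 1
  funext y
  rw [pr, Finset.prod_mul_distrib]
  congr 1
  · rw [Finset.prod_ite_eq' Finset.univ t (fun s => gb b (y s))]; simp
  · rw [Finset.prod_ite_eq' Finset.univ t' (fun s => gb b' (y s))]; simp

theorem card_ne : (Fintype.card K : ℂ) ≠ 0 := by exact_mod_cast Fintype.card_ne_zero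

theorem sum_neg_eq (ψ : AddChar K ℂ) : ∑ x, ψ (-x) = if ψ = 0 then (Fintype.card K : ℂ) else 0 := by
  rw [← AddChar.sum_eq_ite ψ]
  exact Fintype.sum_equiv (Equiv.neg K) _ _ fun x => rfl

theorem sum_gb_eq (b : K) (ψ : AddChar K ℂ) : ∑ x, gb b x * ψ (-x) = if ψ = 0 then 0 else ψ (-b) := by
  have h1 : ∀ x, gb b x * ψ (-x) = (if x = b then ψ (-x) else 0) - (Fintype.card K : ℂ)⁻¹ * ψ (-x) := by
    intro x
    rw [gb]; split_ifs <;> ring
  simp_rw [h1, Finset.sum_sub_distrib, ← Finset.mul_sum, sum_neg_eq]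
  simp only [Finset.sum_ite_eq', Finset.mem_univ, if_true]
  split_ifs with h
  · subst h
    rw [inv_mul_cancel₀ card_ne]; simp
  · simp

theorem sum_gb_gb_le (b b' : K) (ψ : AddChar K ℂ) :
    ‖∑ x, (gb b x * gb b' x) * ψ (-x)‖ ≤ (if b = b' then 1 else 0) + 3 * (Fintype.card K : ℝ)⁻¹ := by
  have hk : (0 : ℝ) ≤ (Fintype.card K : ℝ)⁻¹ := by positivity
  have hk1 : (Fintype.card K : ℝ) * (Fintype.card K : ℝ)⁻¹ = 1 := mul_inv_cancel₀ (by
    exact_mod_cast Fintype.card_ne_zero)
  set κ : ℝ := (Fintype.card K : ℝ)⁻¹ with hκ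
  have h1 : ∀ x, ‖(gb b x * gb b' x) * ψ (-x)‖ ≤
      (if x = b then (if b = b' then 1 else 0) else 0) + κ * (if x = b then 1 else 0) +
        κ * (if x = b' then 1 else 0) + κ * κ := by
    intro x
    have h2 : gb b x * gb b' x = ((if x = b then (if b = b' then 1 else 0) else 0) : ℝ) -
        κ * ((if x = b then 1 else 0 : ℝ)) - κ * ((if x = b' then 1 else 0 : ℝ)) + κ * κ := by
      rw [gb, gb, hκ]
      push_cast
      by_cases h3 : x = b
      · by_cases h4 : x = b'
        · have h5 : b = b' := h3.symm.trans h4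
          simp [h3, h5]; ring
        · have h5 : b ≠ b' := fun h => h4 (h3.trans h)
          simp [h3, h5]; ring
      · by_cases h4 : x = b'
        · have h5 : b' ≠ b := fun h => h3 (h4.trans h)
          simp [h4, h5]; ring
        · simp [h3, h4]
    rw [norm_mul, AddChar.norm_apply, mul_one, h2]
    have h6 : (0:ℝ) ≤ (if x = b then (if b = b' then 1 else 0) else 0) := by split_ifs <;> norm_num
    have h7 : (0:ℝ) ≤ κ * (if x = b then 1 else 0) := by split_ifs <;> simp [hk]
    have h8 : (0:ℝ) ≤ κ * (if x = b' then 1 else 0) := by split_ifs <;> simp [hk]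
    rw [show (((if x = b then (if b = b' then 1 else 0) else 0) : ℝ) : ℂ) -
        κ * ((if x = b then 1 else 0 : ℝ)) - κ * ((if x = b' then 1 else 0 : ℝ)) + κ * κ =
        (((if x = b then (if b = b' then 1 else 0) else 0) -
        κ * ((if x = b then 1 else 0 : ℝ)) - κ * ((if x = b' then 1 else 0 : ℝ)) + κ * κ : ℝ) : ℂ) by push_cast; ring,
      Complex.norm_real, Real.norm_eq_abs, abs_le]
    constructor <;> nlinarith [mul_nonneg hk hk]
  refine (norm_sum_le _ _).trans ((Finset.sum_le_sum fun x _ => h1 x).trans (le_of_eq ?_))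
  simp only [Finset.sum_add_distrib, ← Finset.mul_sum, Finset.sum_ite_eq', Finset.mem_univ, if_true, Finset.sum_const,
    Finset.card_univ, nsmul_eq_mul]
  linear_combination κ * hk1

/-- The set of the letters at which the character is not trivial. -/
noncomputable def sp (e : τ → AddChar K ℂ) : Finset τ := by
  classical exact univ.filter fun s => e s ≠ 0

theorem mem_sp {e : τ → AddChar K ℂ} {s : τ} : s ∈ sp e ↔ e s ≠ 0 := by
  classical
  simp [sp]

/-- A factor of a coefficient. -/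
noncomputable def fac (b b' : K) (t t' : τ) (e : τ → AddChar K ℂ) (s : τ) : ℂ := (Fintype.card K : ℂ)⁻¹ *
  ∑ x, ((if s = t then gb b x else 1) * (if s = t' then gb b' x else 1)) * e s (-x)

theorem fac_other {b b' : K} {t t' : τ} (e : τ → AddChar K ℂ) {s : τ} (h : s ≠ t) (h' : s ≠ t') :
    fac b b' t t' e s = if e s = 0 then 1 else 0 := by
  simp only [fac, h, h', if_false, one_mul]
  rw [sum_neg_eq]
  split_ifs
  · exact inv_mul_cancel₀ card_ne
  · simp

theorem fac_left {b b' : K} {t t' : τ} (e : τ → AddChar K ℂ) (h : t ≠ t') :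
    fac b b' t t' e t = if e t = 0 then 0 else (Fintype.card K : ℂ)⁻¹ * e t (-b) := by
  simp only [fac, h, if_false, if_true, mul_one]
  rw [sum_gb_eq]
  split_ifs <;> simp

theorem fac_right {b b' : K} {t t' : τ} (e : τ → AddChar K ℂ) (h : t ≠ t') :
    fac b b' t t' e t' = if e t' = 0 then 0 else (Fintype.card K : ℂ)⁻¹ * e t' (-b') := by
  simp only [fac, h.symm, if_false, if_true, one_mul]
  rw [sum_gb_eq]
  split_ifs <;> simp

theorem norm_fac_other {b b' : K} {t t' : τ} (e : τ → AddChar K ℂ) {s : τ} (h : s ≠ t) (h' : s ≠ t') :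
    ‖fac b b' t t' e s‖ ≤ 1 := by
  rw [fac_other e h h']
  split_ifs <;> simp

theorem norm_inv_mul (ψ : AddChar K ℂ) (x : K) : ‖(Fintype.card K : ℂ)⁻¹ * ψ x‖ = (Fintype.card K : ℝ)⁻¹ := by
  rw [norm_mul, AddChar.norm_apply, mul_one, norm_inv]
  simp

theorem norm_coef_pr_le {b b' : K} {t t' : τ} (e : τ → AddChar K ℂ) (h : t ≠ t') :
    ‖coef (pr b b' t t') e‖ ≤ (Fintype.card K : ℝ)⁻¹ * (Fintype.card K : ℝ)⁻¹ := by
  have hk : (0 : ℝ) ≤ (Fintype.card K : ℝ)⁻¹ := by positivity
  rw [coef_pr, norm_prod]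
  calc _ ≤ ∏ s, ((if s = t then (Fintype.card K : ℝ)⁻¹ else 1) * (if s = t' then (Fintype.card K : ℝ)⁻¹ else 1)) := by
        refine Finset.prod_le_prod (fun _ _ => norm_nonneg _) fun s _ => ?_
        change ‖fac b b' t t' e s‖ ≤ _
        by_cases hs : s = t
        · subst hs
          rw [fac_left e h]
          simp only [h, if_true, if_false, mul_one]
          split_ifs
          · simp
          · rw [norm_inv_mul]
        · by_cases hs' : s = t'
          · subst hs'
            rw [fac_right e h]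
            simp only [hs, if_true, if_false, one_mul]
            split_ifs
            · simp
            · rw [norm_inv_mul]
          · simpa [hs, hs'] using norm_fac_other e hs hs'
    _ = _ := by
        rw [Finset.prod_mul_distrib, Finset.prod_ite_eq' Finset.univ t fun _ => (Fintype.card K : ℝ)⁻¹,
          Finset.prod_ite_eq' Finset.univ t' fun _ => (Fintype.card K : ℝ)⁻¹]
        simp

theorem norm_coef_pr_self_le {b b' : K} {t : τ} (e : τ → AddChar K ℂ) :
    ‖coef (pr b b' t t) e‖ ≤ (Fintype.card K : ℝ)⁻¹ * ((if b = b' then 1 else 0) + 3 * (Fintype.card K : ℝ)⁻¹) := by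
  have hk : (0 : ℝ) ≤ (Fintype.card K : ℝ)⁻¹ := by positivity
  rw [coef_pr, norm_prod]
  calc _ ≤ ∏ s, (if s = t then (Fintype.card K : ℝ)⁻¹ * ((if b = b' then 1 else 0) + 3 * (Fintype.card K : ℝ)⁻¹)
        else 1) := by
        refine Finset.prod_le_prod (fun _ _ => norm_nonneg _) fun s _ => ?_
        by_cases hs : s = t
        · have h2 : ‖(Fintype.card K : ℂ)⁻¹ * ∑ x, (gb b x * gb b' x) * e s (-x)‖ ≤
              (Fintype.card K : ℝ)⁻¹ * ((if b = b' then 1 else 0) + 3 * (Fintype.card K : ℝ)⁻¹) := by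
            have h3 := sum_gb_gb_le b b' (e s)
            have h4 : ‖(Fintype.card K : ℂ)⁻¹‖ = (Fintype.card K : ℝ)⁻¹ := by
              rw [norm_inv, Complex.norm_natCast]
            rw [norm_mul, h4]
            exact mul_le_mul_of_nonneg_left h3 hk
          rw [if_pos hs]
          simp_rw [if_pos hs]
          exact h2
        · rw [if_neg hs]
          exact norm_fac_other e hs hs
    _ = _ := by
        rw [Finset.prod_ite_eq' Finset.univ t fun _ =>
          (Fintype.card K : ℝ)⁻¹ * ((if b = b' then 1 else 0) + 3 * (Fintype.card K : ℝ)⁻¹)]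
        simp

theorem sp_eq_of_ne {b b' : K} {t t' : τ} {e : τ → AddChar K ℂ} (h : t ≠ t') (h0 : coef (pr b b' t t') e ≠ 0) :
    sp e = {t, t'} := by
  rw [coef_pr] at h0
  have h1 : ∀ s, fac b b' t t' e s ≠ 0 := fun s hs => h0 (Finset.prod_eq_zero (Finset.mem_univ s) hs)
  ext s
  rw [mem_sp, Finset.mem_insert, Finset.mem_singleton]
  constructor
  · intro h2
    by_contra h3
    rw [not_or] at h3
    have h4 := h1 s
    rw [fac_other e h3.1 h3.2, if_neg h2] at h4
    exact h4 rfl
  · rintro (rfl | rfl) h2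
    · have h4 := h1 s
      rw [fac_left e h, if_pos h2] at h4
      exact h4 rfl
    · have h4 := h1 s
      rw [fac_right e h, if_pos h2] at h4
      exact h4 rfl

theorem sp_subset_of_self {b b' : K} {t : τ} {e : τ → AddChar K ℂ} (h0 : coef (pr b b' t t) e ≠ 0) :
    sp e ⊆ {t} := by
  rw [coef_pr] at h0
  have h1 : ∀ s, fac b b' t t e s ≠ 0 := fun s hs => h0 (Finset.prod_eq_zero (Finset.mem_univ s) hs)
  intro s h2
  rw [mem_sp] at h2
  by_contra h3
  rw [Finset.mem_singleton] at h3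
  have h4 := h1 s
  rw [fac_other e h3 h3, if_neg h2] at h4
  exact h4 rfl

/-- The square of the sum over the letters. -/
noncomputable def sq (b b' : K) (y : τ → K) : ℂ := (∑ t, gb b (y t)) * ∑ t, gb b' (y t)

theorem coef_sq (b b' : K) (e : τ → AddChar K ℂ) :
    coef (sq b b') e = ∑ p : τ × τ, coef (pr b b' p.1 p.2) e := by
  rw [← coef_sum]
  congr 1
  funext y
  rw [sq, Finset.sum_mul_sum, ← Finset.univ_product_univ, Finset.sum_product]
  rfl

theorem coef_sq_eq_zero {b b' : K} {e : τ → AddChar K ℂ} (h : 2 < (sp e).card) : coef (sq b b') e = 0 := by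
  rw [coef_sq]
  refine Finset.sum_eq_zero fun p _ => ?_
  by_contra h0
  by_cases h1 : p.1 = p.2
  · rw [← h1] at h0
    have h2 := Finset.card_le_card (sp_subset_of_self h0)
    simp at h2
    omega
  · have h2 := sp_eq_of_ne h1 h0
    rw [h2, Finset.card_pair h1] at h
    omega

theorem norm_coef_sq_le (b b' : K) (e : τ → AddChar K ℂ) (hm : 1 ≤ Fintype.card τ) :
    ‖coef (sq b b') e‖ ≤ Fintype.card τ *
      ((Fintype.card K : ℝ)⁻¹ * ((if b = b' then 1 else 0) + 5 * (Fintype.card K : ℝ)⁻¹)) := by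
  classical
  have hk : (0 : ℝ) ≤ (Fintype.card K : ℝ)⁻¹ := by positivity
  set κ : ℝ := (Fintype.card K : ℝ)⁻¹ with hκ
  have h1 : ∀ p : τ × τ, ‖coef (pr b b' p.1 p.2) e‖ ≤
      (if p.1 = p.2 then κ * ((if b = b' then 1 else 0) + 3 * κ) else 0) +
        (if p.1 ≠ p.2 ∧ sp e = {p.1, p.2} then κ * κ else 0) := by
    intro p
    by_cases h2 : p.1 = p.2
    · simp only [h2, ne_eq, not_true_eq_false, false_and, if_false, add_zero, if_true]
      exact norm_coef_pr_self_le e
    · by_cases h3 : coef (pr b b' p.1 p.2) e = 0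
      · rw [h3]
        simp only [h2, if_false, norm_zero, zero_add]
        split_ifs <;> positivity
      · have h4 := sp_eq_of_ne h2 h3
        simp only [h2, ne_eq, not_false_eq_true, h4, and_self, if_true, if_false, zero_add]
        exact norm_coef_pr_le e h2
  have h5 : ((univ : Finset (τ × τ)).filter fun p => p.1 ≠ p.2 ∧ sp e = {p.1, p.2}).card ≤ 2 := by
    by_cases hE : (sp e).card ≤ 2
    · refine (Finset.card_le_card_of_injOn (t := sp e) (fun p => p.1) ?_ ?_).trans hE
      · intro p hp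
        simp only [Finset.coe_filter, Finset.mem_univ, true_and, Set.mem_ofPred_eq] at hp
        rw [hp.2]; simp
      · intro p hp p' hp' h
        simp only [Finset.coe_filter, Finset.mem_univ, true_and, Set.mem_ofPred_eq] at hp hp'
        have h6 : p.2 ∈ ({p'.1, p'.2} : Finset τ) := by rw [← hp'.2, hp.2]; simp
        rw [Finset.mem_insert, Finset.mem_singleton] at h6
        rcases h6 with h6 | h6
        · exact absurd (h.trans h6.symm) hp.1
        · exact Prod.ext h h6
    · rw [Finset.filter_false_of_mem]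
      · simp
      · rintro p - ⟨h6, h7⟩
        rw [h7, Finset.card_pair h6] at hE
        exact hE le_rfl
  rw [coef_sq]
  refine (norm_sum_le _ _).trans ((Finset.sum_le_sum fun p _ => h1 p).trans ?_)
  rw [Finset.sum_add_distrib, ← Finset.sum_filter (fun p : τ × τ => p.1 ≠ p.2 ∧ sp e = {p.1, p.2}), Finset.sum_const,
    ← Finset.univ_product_univ, Finset.sum_product]
  simp only [Finset.sum_ite_eq, Finset.mem_univ, if_true, Finset.sum_const, Finset.card_univ, nsmul_eq_mul]
  have h8 : (((univ : Finset τ) ×ˢ (univ : Finset τ)).filter fun p => p.1 ≠ p.2 ∧ sp e = {p.1, p.2}).card ≤ 2 := by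
    rwa [Finset.univ_product_univ]
  have h9 : ((((univ : Finset τ) ×ˢ (univ : Finset τ)).filter fun p => p.1 ≠ p.2 ∧ sp e = {p.1, p.2}).card : ℝ) ≤ 2 := by
    exact_mod_cast h8
  have h10 : (1 : ℝ) ≤ Fintype.card τ := by exact_mod_cast hm
  have h11 : (0 : ℝ) ≤ κ * κ := mul_nonneg hk hk
  nlinarith [mul_le_mul_of_nonneg_right h9 h11, mul_le_mul_of_nonneg_right h10 h11]

end Node

end Pool.Agent.Helper45.BT
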