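import Pool.Agent.Helper99.BT.Defs
import Pool.Agent.Helper43.BT.Color
import Pool.Agent.Helper43.BT.Window

/-!
# One list: few pairs of samples and colourings are bad (E4 from E1, E2, E3)
-/

set_option autoImplicit false

namespace Pool.Agent.Helper45.BT

open Finset Pool.Agent.Helper96.BT Pool.Agent.Helper99.BT
open Pool.Agent.Helper99.NK (times)

open Classical in
/-- A symbol outside the windows of a side is not queried on the side. -/
theorem disjoint_free {C : Type} [Fintype C] {q w J : ℕ} (H : Fin q → C) (A : Finset (Fin J)) (l : List C)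
    (X : Finset C) :
    (X.filter (fun z => Disjoint ((univ : Finset (Fin J)).filter (fun j : Fin J =>
      z ∈ (l.drop (cutp H w l j)).take (cutp H w l (j + 1) - cutp H w l j))) A)).card ≤
      (free (partb A (cutp H w l) l)).card := by
  refine card_le_card fun z hz => ?_
  rw [mem_filter] at hz
  unfold free
  rw [mem_filter]
  refine ⟨mem_univ _, fun h => ?_⟩
  unfold partb at h
  rw [List.mem_flatMap] at h
  obtain ⟨j, hj, h1⟩ := h
  rw [List.mem_filter] at hj
  have hjA : j ∈ A := by simpa using hj.2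
  refine (disjoint_left.1 hz.2) ?_ hjA
  rw [mem_filter]
  exact ⟨mem_univ _, h1⟩

open Classical in
/-- The bad pairs for a fixed first component. -/
theorem card_pairs {α β : Type} [Fintype α] [Fintype β] (B : α → β → Prop) {c : ℝ}
    (h : ∀ a, (((univ : Finset β).filter (fun b => B a b)).card : ℝ) ≤ c) :
    (((univ : Finset (α × β)).filter (fun p => B p.1 p.2)).card : ℝ) ≤ Fintype.card α * c := by
  have e : ((univ : Finset (α × β)).filter (fun p => B p.1 p.2)).card =
      ∑ a : α, ((univ : Finset β).filter (fun b => B a b)).card := by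
    rw [card_filter, ← univ_product_univ, sum_product]
    refine sum_congr rfl fun a _ => ?_
    rw [card_filter]
  rw [e]
  push_cast
  calc ∑ a : α, (((univ : Finset β).filter (fun b => B a b)).card : ℝ) ≤ ∑ _a : α, c := sum_le_sum fun a _ => h a
    _ = Fintype.card α * c := by rw [sum_const, card_univ, nsmul_eq_mul]

open Classical in
/-- The bad pairs, if the condition is on the first component. -/
theorem card_fst {α β : Type} [Fintype α] [Fintype β] (B : α → Prop) :
    ((univ : Finset (α × β)).filter (fun p => B p.1)).card =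
      ((univ : Finset α).filter B).card * Fintype.card β := by
  have e : (univ : Finset (α × β)).filter (fun p => B p.1) = ((univ : Finset α).filter B) ×ˢ (univ : Finset β) := by
    ext p
    simp
  rw [e, card_product, card_univ]

open Classical in
theorem one_list_of {C : Type} [Fintype C] [Nonempty C] {q w T d E : ℕ} (hq : 0 < q) (hE : E ≤ Fintype.card C) {ε : ℝ}
    (h0 : 0 < ε) (hT : (Fintype.card C : ℝ) ≤ T + ε * Fintype.card C / (2 * 2 ^ w)) (l : List C)
    (hsam : ∀ X : Finset C,
      (Nat.card {H : Fin q → C // ∃ s t, E ≤ (((l.drop s).take t).toFinset ∩ X).card ∧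
        ∀ i, H i ∉ ((l.drop s).take t).toFinset ∩ X} : ℝ) ≤
      (2 ^ d + 1) ^ 2 * (1 - (E : ℝ) / Fintype.card C) ^ q * Nat.card (Fin q → C))
    (hfew : ∀ X : Finset C, ε * Fintype.card C ≤ X.card →
      (Nat.card {H : Fin q → C // (Nat.card {i // H i ∈ X} : ℝ) < 3 / 4 * ε * q} : ℝ) ≤
      16 / (ε * q) * Nat.card (Fin q → C))
    (hmany : ∀ X : Finset C, (X.card : ℝ) < ε / 2 * Fintype.card C →
      (Nat.card {H : Fin q → C // 3 / 4 * ε * q ≤ (Nat.card {i // H i ∈ X} : ℝ)} : ℝ) ≤
      16 / (ε * q) * Nat.card (Fin q → C)) :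
    (Nat.card {p : (Fin q → C) × Finset (Fin ((w + 1) * q + 1)) //
        (Rare ε w l ∧ ¬ GoodH p.1 w T (3 / 4 * ε * q) p.2 l) ∨
        (GoodH p.1 w T (3 / 4 * ε * q) p.2 l ∧ ¬ Rare (ε / 2) w l)} : ℝ) ≤
      ((2 ^ d + 1) ^ 2 * (1 - (E : ℝ) / Fintype.card C) ^ q +
        8 * 2 ^ w * ((w + 1) * q + 1) * E ^ 2 / (ε * Fintype.card C) ^ 2 + 16 / (ε * q)) *
        Nat.card ((Fin q → C) × Finset (Fin ((w + 1) * q + 1))) := by
  have hC : (0 : ℝ) < Fintype.card C := by exact_mod_cast Fintype.card_pos
  have hq' : (0 : ℝ) < q := by exact_mod_cast hq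
  have h1 : (0 : ℝ) ≤ 1 - (E : ℝ) / Fintype.card C := by
    rw [sub_nonneg, div_le_one hC]
    exact_mod_cast hE
  set J : ℕ := (w + 1) * q + 1 with hJ
  set N : ℝ := (Fintype.card C : ℝ) with hN
  set a1 : ℝ := (2 ^ d + 1) ^ 2 * (1 - (E : ℝ) / N) ^ q with ha1
  set a2 : ℝ := 4 * 2 ^ w * J * E ^ 2 / (ε * N) ^ 2 with ha2
  set a3 : ℝ := 16 / (ε * q) with ha3
  have ha1' : 0 ≤ a1 := by positivity
  have ha2' : 0 ≤ a2 := by positivity
  have ha3' : 0 ≤ a3 := by positivity
  have hsum : (2 ^ d + 1) ^ 2 * (1 - (E : ℝ) / N) ^ q +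
        8 * 2 ^ w * ((w + 1) * q + 1) * E ^ 2 / (ε * N) ^ 2 + 16 / (ε * q) = a1 + (a2 + a2) + a3 := by
    rw [ha1, ha2, ha3, hJ]
    push_cast
    ring
  rw [hsum]
  set M : ℝ := (Nat.card (Fin q → C) : ℝ) with hM
  have hM' : M = Fintype.card (Fin q → C) := by rw [hM, Nat.card_eq_fintype_card]
  have hM0 : 0 ≤ M := by positivity
  have htot : (Nat.card ((Fin q → C) × Finset (Fin J)) : ℝ) = M * 2 ^ J := by
    rw [Nat.card_prod, Nat.cast_mul, Nat.card_eq_fintype_card (α := Finset (Fin J)), Fintype.card_finset,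
      Fintype.card_fin]
    push_cast
    rfl
  rw [htot]
  -- the rare symbols
  set X : Finset C := univ.filter (fun z => l.count z ≤ w) with hX
  have hXw : ∀ z ∈ X, l.count z ≤ w := fun z hz => (mem_filter.1 hz).2
  have hrare : ∀ e : ℝ, Rare e w l ↔ e * N ≤ X.card := by
    intro e
    constructor
    · rintro ⟨Y, hY, h2⟩
      refine hY.trans ?_
      exact_mod_cast card_le_card fun z hz => mem_filter.2 ⟨mem_univ _, h2 z hz⟩
    · intro h
      exact ⟨X, h, hXw⟩
  have hnum : ∀ H : Fin q → C, Nat.card {i // times l (H i) ≤ w} = Nat.card {i // H i ∈ X} := by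
    intro H
    refine Nat.card_congr (Equiv.subtypeEquivRight fun i => ?_)
    rw [hX, mem_filter]
    exact ⟨fun h => ⟨mem_univ _, h⟩, fun h => h.2⟩
  rw [Nat.card_eq_fintype_card, Fintype.card_subtype]
  by_cases hc : ε * N ≤ X.card
  · -- many rare symbols
    have hXpos : (0 : ℝ) < X.card := lt_of_lt_of_le (by positivity) hc
    set F1 : (Fin q → C) → Prop := fun H => ∃ s t, E ≤ (((l.drop s).take t).toFinset ∩ X).card ∧
        ∀ i, H i ∉ ((l.drop s).take t).toFinset ∩ X with hF1
    set F4 : (Fin q → C) → Prop := fun H => (Nat.card {i // H i ∈ X} : ℝ) < 3 / 4 * ε * q with hF4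
    set Nw : (Fin q → C) → C → Finset (Fin J) := fun H z => (univ : Finset (Fin J)).filter (fun j : Fin J =>
      z ∈ (l.drop (cutp H w l j)).take (cutp H w l (j + 1) - cutp H w l j)) with hNw
    obtain ⟨F2, hF2⟩ : ∃ F2 : (Fin q → C) → Finset (Fin J) → Prop, ∀ H A, F2 H A ↔ (¬ F1 H ∧
      2 * 2 ^ w * (X.filter (fun z => Disjoint (Nw H z) A)).card < X.card) := ⟨_, fun _ _ => Iff.rfl⟩
    obtain ⟨F3, hF3⟩ : ∃ F3 : (Fin q → C) → Finset (Fin J) → Prop, ∀ H A, F3 H A ↔ (¬ F1 H ∧
      2 * 2 ^ w * (X.filter (fun z => Disjoint (Nw H z) Aᶜ)).card < X.card) := ⟨_, fun _ _ => Iff.rfl⟩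
    have hsub : (univ : Finset ((Fin q → C) × Finset (Fin J))).filter (fun p =>
        (Rare ε w l ∧ ¬ GoodH p.1 w T (3 / 4 * ε * q) p.2 l) ∨
        (GoodH p.1 w T (3 / 4 * ε * q) p.2 l ∧ ¬ Rare (ε / 2) w l)) ⊆
        ((univ.filter (fun p => F1 p.1) ∪ univ.filter (fun p => F2 p.1 p.2)) ∪
          univ.filter (fun p => F3 p.1 p.2)) ∪ univ.filter (fun p => F4 p.1) := by
      intro p hp
      rw [mem_filter] at hp
      rw [mem_union, mem_union, mem_union, mem_filter, mem_filter, mem_filter, mem_filter]
      by_contra hcon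
      push Not at hcon
      obtain ⟨⟨⟨c1, c2⟩, c3⟩, c4⟩ := hcon
      have c1 := c1 (mem_univ _)
      have c2 := c2 (mem_univ _)
      have c3 := c3 (mem_univ _)
      have c4 := c4 (mem_univ _)
      rw [hF4] at c4
      simp only [not_lt] at c4
      have d2 : X.card ≤ 2 * 2 ^ w * (X.filter (fun z => Disjoint (Nw p.1 z) p.2)).card := by
        by_contra h
        exact c2 ((hF2 _ _).2 ⟨c1, not_le.1 h⟩)
      have d3 : X.card ≤ 2 * 2 ^ w * (X.filter (fun z => Disjoint (Nw p.1 z) p.2ᶜ)).card := by
        by_contra h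
        exact c3 ((hF3 _ _).2 ⟨c1, not_le.1 h⟩)
      have key : ∀ A : Finset (Fin J), X.card ≤ 2 * 2 ^ w * (X.filter (fun z => Disjoint (Nw p.1 z) A)).card →
          Fintype.card C ≤ (free (partb A (cutp p.1 w l) l)).card + T := by
        intro A hA
        have e1 := disjoint_free (w := w) p.1 A l X
        have e2 : (X.card : ℝ) ≤ 2 * 2 ^ w * (free (partb A (cutp p.1 w l) l)).card := by
          have : X.card ≤ 2 * 2 ^ w * (free (partb A (cutp p.1 w l) l)).card :=
            hA.trans (Nat.mul_le_mul_left _ e1)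
          exact_mod_cast this
        have e3 : N ≤ T + (free (partb A (cutp p.1 w l) l)).card := by
          refine hT.trans ?_
          have : ε * N / (2 * 2 ^ w) ≤ (free (partb A (cutp p.1 w l) l)).card := by
            rw [div_le_iff₀ (by positivity)]
            linarith
          linarith
        have e4 : Fintype.card C ≤ T + (free (partb A (cutp p.1 w l) l)).card := by
          rw [hN] at e3
          exact_mod_cast e3
        omega
      have hgood : GoodH p.1 w T (3 / 4 * ε * q) p.2 l := by
        refine ⟨?_, key _ d2, key _ d3⟩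
        rw [hnum]
        exact c4
      rcases hp.2 with h | h
      · exact h.2 hgood
      · refine h.2 ((hrare _).2 ?_)
        have : 0 ≤ ε * N := by positivity
        linarith
    have b1 : (((univ : Finset ((Fin q → C) × Finset (Fin J))).filter (fun p => F1 p.1)).card : ℝ) ≤
        a1 * (M * 2 ^ J) := by
      rw [card_fst, Nat.cast_mul, Fintype.card_finset, Fintype.card_fin]
      have := hsam X
      rw [Nat.card_eq_fintype_card, Fintype.card_subtype] at this
      have h3 : (((univ : Finset (Fin q → C)).filter F1).card : ℝ) ≤ a1 * M := this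
      push_cast
      calc (((univ : Finset (Fin q → C)).filter F1).card : ℝ) * 2 ^ J ≤ a1 * M * 2 ^ J :=
            mul_le_mul_of_nonneg_right h3 (by positivity)
        _ = _ := by ring
    have b4 : (((univ : Finset ((Fin q → C) × Finset (Fin J))).filter (fun p => F4 p.1)).card : ℝ) ≤
        a3 * (M * 2 ^ J) := by
      rw [card_fst, Nat.cast_mul, Fintype.card_finset, Fintype.card_fin]
      have := hfew X hc
      rw [Nat.card_eq_fintype_card, Fintype.card_subtype] at this
      have h3 : (((univ : Finset (Fin q → C)).filter F4).card : ℝ) ≤ a3 * M := this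
      push_cast
      calc (((univ : Finset (Fin q → C)).filter F4).card : ℝ) * 2 ^ J ≤ a3 * M * 2 ^ J :=
            mul_le_mul_of_nonneg_right h3 (by positivity)
        _ = _ := by ring
    have hwin : ∀ H, ¬ F1 H → ∀ j : Fin J, (X.filter (fun z => j ∈ Nw H z)).card ≤ E := by
      intro H hH j
      have h3 := Helper43.BT.win_few (w := w) (D := E) (H := H) (l := l) (X := X) hXw (by
        intro s e hse
        by_contra h4
        push Not at h4
        refine hH ⟨s, e, by rwa [inter_comm], fun i => ?_⟩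
        rw [inter_comm]
        exact h4 i) j
      refine (card_le_card fun z hz => ?_).trans h3
      rw [mem_filter] at hz
      rw [mem_inter, List.mem_toFinset]
      exact ⟨hz.1, (mem_filter.1 hz.2).2⟩
    have hcard : ∀ H, ∀ z ∈ X, (Nw H z).card ≤ w := fun H z hz => Helper43.BT.card_windows_le (hXw z hz)
    have hdiv : ∀ c : ℝ, 0 ≤ c → c * (X.card : ℝ) ^ 2 ≤ 4 * 2 ^ w * J * E ^ 2 * 2 ^ J → c ≤ a2 * 2 ^ J := by
      intro c hc0 h
      have e1 : (ε * N) ^ 2 ≤ (X.card : ℝ) ^ 2 := pow_le_pow_left₀ (by positivity) hc 2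
      have e2 : c * (ε * N) ^ 2 ≤ 4 * 2 ^ w * J * E ^ 2 * 2 ^ J := (mul_le_mul_of_nonneg_left e1 hc0).trans h
      rw [ha2, div_mul_eq_mul_div, le_div_iff₀ (by positivity)]
      exact e2
    have b2 : (((univ : Finset ((Fin q → C) × Finset (Fin J))).filter (fun p => F2 p.1 p.2)).card : ℝ) ≤
        a2 * (M * 2 ^ J) := by
      have := card_pairs F2 (c := a2 * 2 ^ J) (by
        intro H
        by_cases hH : F1 H
        · rw [filter_false_of_mem, card_empty, Nat.cast_zero]
          · positivity
          · intro A _ h3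
            exact ((hF2 _ _).1 h3).1 hH
        · refine hdiv _ (by positivity) ?_
          have h3 := Helper43.BT.color X (Nw H) (hcard H) (hwin H hH)
          refine le_trans (mul_le_mul_of_nonneg_right ?_ (by positivity)) h3
          exact_mod_cast card_le_card fun A hA => by
            rw [mem_filter] at hA ⊢
            exact ⟨mem_univ _, ((hF2 _ _).1 hA.2).2⟩)
      rw [← hM'] at this
      refine this.trans (le_of_eq ?_)
      ring
    have b3 : (((univ : Finset ((Fin q → C) × Finset (Fin J))).filter (fun p => F3 p.1 p.2)).card : ℝ) ≤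
        a2 * (M * 2 ^ J) := by
      have := card_pairs F3 (c := a2 * 2 ^ J) (by
        intro H
        by_cases hH : F1 H
        · rw [filter_false_of_mem, card_empty, Nat.cast_zero]
          · positivity
          · intro A _ h3
            exact ((hF3 _ _).1 h3).1 hH
        · refine hdiv _ (by positivity) ?_
          have h3 := Helper43.BT.color_compl X (Nw H) (hcard H) (hwin H hH)
          refine le_trans (mul_le_mul_of_nonneg_right ?_ (by positivity)) h3
          exact_mod_cast card_le_card fun A hA => by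
            rw [mem_filter] at hA ⊢
            exact ⟨mem_univ _, ((hF3 _ _).1 hA.2).2⟩)
      rw [← hM'] at this
      refine this.trans (le_of_eq ?_)
      ring
    have hU : (((univ : Finset ((Fin q → C) × Finset (Fin J))).filter (fun p =>
        (Rare ε w l ∧ ¬ GoodH p.1 w T (3 / 4 * ε * q) p.2 l) ∨
        (GoodH p.1 w T (3 / 4 * ε * q) p.2 l ∧ ¬ Rare (ε / 2) w l))).card : ℝ) ≤
        ((univ.filter (fun p : (Fin q → C) × Finset (Fin J) => F1 p.1)).card : ℝ) +
          (univ.filter (fun p : (Fin q → C) × Finset (Fin J) => F2 p.1 p.2)).card +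
          (univ.filter (fun p : (Fin q → C) × Finset (Fin J) => F3 p.1 p.2)).card +
          (univ.filter (fun p : (Fin q → C) × Finset (Fin J) => F4 p.1)).card := by
      have e1 := card_le_card hsub
      have e2 := e1.trans ((card_union_le _ _).trans (Nat.add_le_add_right ((card_union_le _ _).trans
        (Nat.add_le_add_right (card_union_le _ _) _)) _))
      exact_mod_cast e2
    refine hU.trans ?_
    have : (a1 + (a2 + a2) + a3) * (M * 2 ^ J) =
      a1 * (M * 2 ^ J) + a2 * (M * 2 ^ J) + a2 * (M * 2 ^ J) + a3 * (M * 2 ^ J) := by ring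
    rw [this]
    linarith
  · have hnr : ¬ Rare ε w l := fun h => hc ((hrare _).1 h)
    by_cases hc2 : ε / 2 * N ≤ X.card
    · have hr : Rare (ε / 2) w l := (hrare _).2 hc2
      rw [filter_false_of_mem, card_empty, Nat.cast_zero]
      · positivity
      · rintro p - (h | h)
        · exact hnr h.1
        · exact h.2 hr
    · have hsub : (univ : Finset ((Fin q → C) × Finset (Fin J))).filter (fun p =>
          (Rare ε w l ∧ ¬ GoodH p.1 w T (3 / 4 * ε * q) p.2 l) ∨
          (GoodH p.1 w T (3 / 4 * ε * q) p.2 l ∧ ¬ Rare (ε / 2) w l)) ⊆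
          univ.filter (fun p => 3 / 4 * ε * q ≤ (Nat.card {i // p.1 i ∈ X} : ℝ)) := by
        intro p hp
        rw [mem_filter] at hp ⊢
        refine ⟨mem_univ _, ?_⟩
        rcases hp.2 with h | h
        · exact absurd h.1 hnr
        · have := h.1.1
          rwa [hnum] at this
      have h3 := hmany X (not_le.1 hc2)
      rw [Nat.card_eq_fintype_card, Fintype.card_subtype] at h3
      have e1 : (((univ : Finset ((Fin q → C) × Finset (Fin J))).filter (fun p =>
          3 / 4 * ε * q ≤ (Nat.card {i // p.1 i ∈ X} : ℝ))).card : ℝ) ≤ a3 * (M * 2 ^ J) := by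
        rw [card_fst (fun H : Fin q → C => 3 / 4 * ε * q ≤ (Nat.card {i // H i ∈ X} : ℝ)), Nat.cast_mul,
          Fintype.card_finset, Fintype.card_fin]
        push_cast
        calc _ ≤ a3 * M * 2 ^ J := mul_le_mul_of_nonneg_right h3 (by positivity)
          _ = _ := by ring
      have e2 : (((univ : Finset ((Fin q → C) × Finset (Fin J))).filter (fun p =>
          (Rare ε w l ∧ ¬ GoodH p.1 w T (3 / 4 * ε * q) p.2 l) ∨
          (GoodH p.1 w T (3 / 4 * ε * q) p.2 l ∧ ¬ Rare (ε / 2) w l))).card : ℝ) ≤
          ((univ : Finset ((Fin q → C) × Finset (Fin J))).filter (fun p =>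
          3 / 4 * ε * q ≤ (Nat.card {i // p.1 i ∈ X} : ℝ))).card := by
        exact_mod_cast card_le_card hsub
      refine (e2.trans e1).trans (mul_le_mul_of_nonneg_right ?_ (by positivity))
      linarith

end Pool.Agent.Helper45.BT
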