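import Pool.Agent.Helper43.BT.Sample
import Pool.Agent.Helper45.BT.OneList
import Pool.Agent.Helper45.BT.Cut

/-!
# Samples (E1, E2, E3), one list (E4) and the cut (E5)
-/

set_option autoImplicit false

namespace Pool.Agent.Helper45.BT

open Finset Pool.Agent.Helper74.NW Pool.Agent.Helper96.BT Pool.Agent.Helper99.BT
open Pool.Agent.Helper99.NK (times)
open Pool.Agent.Helper96.PH (Det)

/-- E1: few samples miss an interval of `l` with at least `E` different elements of `X`. -/
theorem samples {C : Type} [Fintype C] [Nonempty C] {q E k : ℕ} (X : Finset C) (l : List C) (hl : l.length ≤ k)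
    (hE : E ≤ Fintype.card C) : open Classical in
    (Nat.card {H : Fin q → C // ∃ s t, E ≤ (((l.drop s).take t).toFinset ∩ X).card ∧
        ∀ i, H i ∉ ((l.drop s).take t).toFinset ∩ X} : ℝ) ≤
      (k + 1) ^ 2 * (1 - (E : ℝ) / Fintype.card C) ^ q * Nat.card (Fin q → C) := by
  classical
  have hC : (0 : ℝ) < Fintype.card C := by exact_mod_cast Fintype.card_pos
  set U : ℕ → ℕ → Finset C := fun s t => ((l.drop s).take t).toFinset ∩ X with hU
  have hU' : ∀ s t, ∃ s' t', s' < k + 1 ∧ t' < k + 1 ∧ U s t = U s' t' := by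
    intro s t
    refine ⟨min s l.length, min t l.length, by omega, by omega, ?_⟩
    have e1 : l.drop (min s l.length) = l.drop s := by
      rcases le_total s l.length with h | h
      · rw [min_eq_left h]
      · rw [min_eq_right h, List.drop_eq_nil_of_le h, List.drop_eq_nil_of_le le_rfl]
    have e2 : (l.drop s).take (min t l.length) = (l.drop s).take t := by
      rcases le_total t l.length with h | h
      · rw [min_eq_left h]
      · rw [min_eq_right h, List.take_of_length_le (by rw [List.length_drop]; omega),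
          List.take_of_length_le (by rw [List.length_drop]; omega)]
    rw [hU]
    simp only
    rw [e1, e2]
  have h1 : ∀ s t, (((univ : Finset (Fin q → C)).filter
      (fun H => E ≤ (U s t).card ∧ ∀ i, H i ∉ U s t)).card : ℝ) ≤
      (1 - (E : ℝ) / Fintype.card C) ^ q * Nat.card (Fin q → C) := by
    intro s t
    have h0 : (0 : ℝ) ≤ 1 - (E : ℝ) / Fintype.card C := by
      rw [sub_nonneg, div_le_one hC]
      exact_mod_cast hE
    by_cases hE' : E ≤ (U s t).card
    · have e1 : (univ : Finset (Fin q → C)).filter (fun H => E ≤ (U s t).card ∧ ∀ i, H i ∉ U s t) =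
          Fintype.piFinset (fun _ : Fin q => (U s t)ᶜ) := by
        ext H
        rw [mem_filter, Fintype.mem_piFinset]
        constructor
        · rintro ⟨-, -, h⟩ i
          exact mem_compl.2 (h i)
        · intro h
          exact ⟨mem_univ _, hE', fun i => mem_compl.1 (h i)⟩
      rw [e1, Fintype.card_piFinset_const, card_compl, Nat.card_eq_fintype_card, Fintype.card_fun, Fintype.card_fin]
      push_cast
      rw [← mul_pow]
      refine pow_le_pow_left₀ (by positivity) ?_ q
      rw [sub_mul, one_mul, div_mul_cancel₀ _ hC.ne', Nat.cast_sub (card_le_univ _)]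
      have : (E : ℝ) ≤ (U s t).card := by exact_mod_cast hE'
      linarith
    · rw [filter_false_of_mem, card_empty, Nat.cast_zero]
      · positivity
      · rintro H - ⟨h, -⟩
        exact hE' h
  have h2 : (univ : Finset (Fin q → C)).filter (fun H => ∃ s t, E ≤ (U s t).card ∧ ∀ i, H i ∉ U s t) ⊆
      (range (k + 1) ×ˢ range (k + 1)).biUnion (fun p => (univ : Finset (Fin q → C)).filter
        (fun H => E ≤ (U p.1 p.2).card ∧ ∀ i, H i ∉ U p.1 p.2)) := by
    intro H hH
    obtain ⟨s, t, h⟩ := (mem_filter.1 hH).2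
    obtain ⟨s', t', hs, ht, e⟩ := hU' s t
    rw [e] at h
    rw [mem_biUnion]
    exact ⟨(s', t'), mem_product.2 ⟨mem_range.2 hs, mem_range.2 ht⟩, mem_filter.2 ⟨mem_univ _, h⟩⟩
  rw [Nat.card_eq_fintype_card, Fintype.card_subtype]
  have h3 : (((univ : Finset (Fin q → C)).filter
      (fun H => ∃ s t, E ≤ (U s t).card ∧ ∀ i, H i ∉ U s t)).card : ℝ) ≤
      ∑ p ∈ range (k + 1) ×ˢ range (k + 1), (((univ : Finset (Fin q → C)).filter
        (fun H => E ≤ (U p.1 p.2).card ∧ ∀ i, H i ∉ U p.1 p.2)).card : ℝ) := by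
    exact_mod_cast (card_le_card h2).trans card_biUnion_le
  refine h3.trans ((sum_le_sum fun p _ => h1 p.1 p.2).trans (le_of_eq ?_))
  rw [sum_const, card_product, card_range, nsmul_eq_mul]
  push_cast
  ring

/-- E2: Chebyshev for the number of samples in `X`. -/
theorem few_samples {C : Type} [Fintype C] [Nonempty C] {q : ℕ} (hq : 0 < q) (X : Finset C) {ε : ℝ} (hε : 0 < ε)
    (hX : ε * Fintype.card C ≤ X.card) :
    (Nat.card {H : Fin q → C // (Nat.card {i // H i ∈ X} : ℝ) < 3 / 4 * ε * q} : ℝ) ≤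
      16 / (ε * q) * Nat.card (Fin q → C) := by
  classical
  have hq' : (0 : ℝ) < q := by exact_mod_cast hq
  have h := Helper43.BT.few_low X q hε hX
  have e : ∀ H : Fin q → C, Nat.card {i // H i ∈ X} = (univ.filter (fun i => H i ∈ X)).card := by
    intro H
    rw [Nat.card_eq_fintype_card, Fintype.card_subtype]
  simp only [e]
  rw [show 16 / (ε * q) * (Nat.card (Fin q → C) : ℝ) = 16 * Nat.card (Fin q → C) / (ε * q) by ring,
    le_div_iff₀ (by positivity)]
  refine h.trans (le_of_eq ?_)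
  rw [Nat.card_eq_fintype_card, Fintype.card_fun, Fintype.card_fin]
  push_cast
  rfl

/-- E3: the converse. -/
theorem many_samples {C : Type} [Fintype C] [Nonempty C] {q : ℕ} (hq : 0 < q) (X : Finset C) {ε : ℝ} (hε : 0 < ε)
    (hX : (X.card : ℝ) < ε / 2 * Fintype.card C) :
    (Nat.card {H : Fin q → C // 3 / 4 * ε * q ≤ (Nat.card {i // H i ∈ X} : ℝ)} : ℝ) ≤
      16 / (ε * q) * Nat.card (Fin q → C) := by
  classical
  have hq' : (0 : ℝ) < q := by exact_mod_cast hq
  have h := Helper43.BT.few_high X q hε hX.le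
  have e : ∀ H : Fin q → C, Nat.card {i // H i ∈ X} = (univ.filter (fun i => H i ∈ X)).card := by
    intro H
    rw [Nat.card_eq_fintype_card, Fintype.card_subtype]
  simp only [e]
  rw [show 16 / (ε * q) * (Nat.card (Fin q → C) : ℝ) = 16 * Nat.card (Fin q → C) / (ε * q) by ring,
    le_div_iff₀ (by positivity)]
  refine h.trans ?_
  rw [Nat.card_eq_fintype_card, Fintype.card_fun, Fintype.card_fin]
  push_cast
  have : (0 : ℝ) ≤ (Fintype.card C : ℝ) ^ q := by positivity
  linarith

/-- E4: one list. -/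
theorem one_list {C : Type} [Fintype C] [Nonempty C] {q w T d E : ℕ} (hq : 0 < q) (_hE0 : 0 < E)
    (hE : E ≤ Fintype.card C) {ε : ℝ}
    (h0 : 0 < ε) (hT : (Fintype.card C : ℝ) ≤ T + ε * Fintype.card C / (2 * 2 ^ w)) (l : List C)
    (hl : l.length ≤ 2 ^ d) :
    (Nat.card {p : (Fin q → C) × Finset (Fin ((w + 1) * q + 1)) //
        (Rare ε w l ∧ ¬ GoodH p.1 w T (3 / 4 * ε * q) p.2 l) ∨
        (GoodH p.1 w T (3 / 4 * ε * q) p.2 l ∧ ¬ Rare (ε / 2) w l)} : ℝ) ≤
      ((2 ^ d + 1) ^ 2 * (1 - (E : ℝ) / Fintype.card C) ^ q +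
        8 * 2 ^ w * ((w + 1) * q + 1) * E ^ 2 / (ε * Fintype.card C) ^ 2 + 16 / (ε * q)) *
        Nat.card ((Fin q → C) × Finset (Fin ((w + 1) * q + 1))) := by
  refine one_list_of hq hE h0 hT l (fun X => ?_) (fun X hX => few_samples hq X h0 hX)
    (fun X hX => many_samples hq X h0 hX)
  have h := samples (q := q) X l hl hE
  push_cast at h
  exact h

/-- E5: samples and a colouring which are good for most inputs. -/
theorem exists_cut {C X Z : Type} [Fintype C] [Fintype X] [Nonempty C] {S : ℕ} (P : NProg C X Z S) (hP : Det P)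
    {q w T d E : ℕ} (hq : 0 < q) (hE0 : 0 < E) (hE : E ≤ Fintype.card C) (hS : S ≤ 2 ^ d) {ε : ℝ} (h0 : 0 < ε)
    (hT : (Fintype.card C : ℝ) ≤ T + ε * Fintype.card C / (2 * 2 ^ w)) :
    ∃ (H : Fin q → C) (A : Finset (Fin ((w + 1) * q + 1))),
      (Nat.card {I : C → X // ∃ l z, P.Ends I l z ∧
        ((Rare ε w l ∧ ¬ GoodH H w T (3 / 4 * ε * q) A l) ∨
          (GoodH H w T (3 / 4 * ε * q) A l ∧ ¬ Rare (ε / 2) w l))} : ℝ) ≤
      ((2 ^ d + 1) ^ 2 * (1 - (E : ℝ) / Fintype.card C) ^ q +
        8 * 2 ^ w * ((w + 1) * q + 1) * E ^ 2 / (ε * Fintype.card C) ^ 2 + 16 / (ε * q)) * Nat.card (C → X) :=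
  exists_cut_of P hP hE hS h0 fun l hl => one_list hq hE0 hE h0 hT l hl

end Pool.Agent.Helper45.BT
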